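import Pool.Agent.H421Z.TEmb.Main

set_option autoImplicit false

namespace Pool.Agent.Results.MP_5b7d0d_gt.NotTEmbedded

open Pool.Agent.H421Z.TEmb

universe u

/-- For every uncountable index set `ι` (in particular for `ι = ω₁`) the Cantor cube `{0,1}^ι` is not
t-embedded in the Tychonoff cube `[0,1]^ι`. -/
theorem result (ι : Type u) [Uncountable ι] : ¬ TEmbedded (cantorCube ι) :=
  Pool.Agent.H421Z.TEmb.main

end Pool.Agent.Results.MP_5b7d0d_gt.NotTEmbedded
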